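import Pool.Agent.Helper14.RG.CycMain
import Pool.Agent.Helper14.RG.Perm

set_option autoImplicit false

/-!
# Assembly for arbitrary simple factors

`S i` are groups with algebras `A i` of regular functions, `P` a class of regular isomorphisms
between them; every automorphism in the class of finite order modulo the centre has a linear chart.
Then `RationalQuotient` holds for every automorphism of finite order of every quotient of the
product by a central subgroup, which permutes the factors by members of the class.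
-/

namespace Pool.Agent.Helper14.RG

open MvPolynomial Matrix

/-- The algebra is compatible with the group operations (a Hopf algebra of functions). -/
def GrpAlg {k : Type*} [Field k] {G : Type*} [Group G] (A : Subalgebra k (G → k)) : Prop :=
  (∀ a ∈ A, (fun x : G × G => a (x.1 * x.2)) ∈ Algebra.adjoin k
    {F : G × G → k | ∃ b ∈ A, F = (fun x => b x.1) ∨ F = (fun x => b x.2)}) ∧
  ∀ a ∈ A, (fun g => a g⁻¹) ∈ A

lemma GrpAlg.mul {k : Type*} [Field k] {G : Type*} [Group G] {A : Subalgebra k (G → k)}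
    (h : GrpAlg A) {X : Type*} (B : Subalgebra k (X → k)) (f f' : X → G)
    (hf : ∀ b ∈ A, (fun x => b (f x)) ∈ B) (hf' : ∀ b ∈ A, (fun x => b (f' x)) ∈ B)
    {a : G → k} (ha : a ∈ A) : (fun x => a (f x * f' x)) ∈ B := by
  have h1 := h.1 a ha
  have key : ∀ F ∈ Algebra.adjoin k
      {F : G × G → k | ∃ b ∈ A, F = (fun x => b x.1) ∨ F = (fun x => b x.2)},
      (fun x => F (f x, f' x)) ∈ B := by
    intro F hF
    induction hF using Algebra.adjoin_induction with
    | mem x hx =>
      obtain ⟨b, hb, rfl | rfl⟩ := hx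
      · exact hf b hb
      · exact hf' b hb
    | algebraMap r => exact Subalgebra.algebraMap_mem _ r
    | add x y _ _ hx hy => exact add_mem hx hy
    | mul x y _ _ hx hy => exact mul_mem hx hy
  exact key _ h1

/-- There is a chart with finitely many coordinates. -/
def HasChart {k : Type*} [Field k] {G : Type*} [Group G] (A : Subalgebra k (G → k))
    (H H' : Subgroup G) : Prop :=
  ∃ (N : Type) (_ : Fintype N) (_ : DecidableEq N), Nonempty (Chart A H H' N)

/-- A power of `T` moves every element by a central element. -/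
def FinMod {G : Type*} [Group G] (T : G ≃* G) : Prop :=
  ∃ M : ℕ, 0 < M ∧ ∀ x, ∃ z ∈ Subgroup.center G, T^[M] x = z * x

theorem cyc_rational' {k : Type*} [Field k] [IsAlgClosed k] [CharZero k] {C : Type*} [Fintype C]
    [DecidableEq C] (m : C → ℕ) {G : C → Type*} [∀ c, Group (G c)]
    (A : ∀ c, Subalgebra k (G c → k)) (hirr : ∀ c, Irr (A c)) (hst : ∀ c, RStable (A c))
    (hcen : ∀ c, Finite (Subgroup.center (G c)))
    (hmul : ∀ (c : C) (a : G c → k), a ∈ A c → ∀ (B : Subalgebra k ((Fin (m c + 1) → G c) → k))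
      (f f' : (Fin (m c + 1) → G c) → G c), (∀ b ∈ A c, (fun g => b (f g)) ∈ B) →
      (∀ b ∈ A c, (fun g => b (f' g)) ∈ B) → (fun g => a (f g * f' g)) ∈ B)
    (hinv : ∀ (c : C) (a : G c → k), a ∈ A c → (fun g => a g⁻¹) ∈ A c)
    (τ : ∀ c, Fin (m c + 1) → (G c ≃* G c))
    (hτ : ∀ (c : C) (j : Fin (m c + 1)), ∀ a ∈ A c, (fun g => a (τ c j g)) ∈ A c)
    (hτ' : ∀ (c : C) (j : Fin (m c + 1)), ∀ a ∈ A c, (fun g => a ((τ c j).symm g)) ∈ A c)
    (hch : ∀ c, FinMod (thN (m c) (τ c) (m c + 1)) →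
      HasChart (A c) (fixSub (thN (m c) (τ c) (m c + 1))) (fixMod (thN (m c) (τ c) (m c + 1))))
    (hcc : ∀ c, HasChart (A c) ⊥ (Subgroup.center (G c)))
    {Q : Type*} [Group Q] (π : (∀ c, Fin (m c + 1) → G c) →* Q)
    (hπ : Function.Surjective π) (hZ : π.ker ≤ Subgroup.center _) (σ : Q ≃* Q)
    (hσ : ∀ g, σ (π g) = π (fun c => cycAut (m c) (τ c) (g c))) (M : ℕ) (hM : 0 < M)
    (hfin : ∀ x, σ^[M] x = x) :
    RationalQuotient (quotAlg (prodAlg (fun c => prodAlg (fun _ : Fin (m c + 1) => A c))) π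
      : Set (Q → k)) (fixSub σ) := by
  classical
  have hc1 : ∀ c, Finite (Subgroup.center (Fin (m c + 1) → G c)) :=
    fun c => finite_of_center (fun _ => hcen c) _ le_rfl
  have hfinker : Finite π.ker := finite_of_center hc1 _ hZ
  have hit : ∀ (j : ℕ) (g : ∀ c, Fin (m c + 1) → G c),
      σ^[j] (π g) = π (fun c => (cycAut (m c) (τ c))^[j] (g c)) := by
    intro j
    induction j with
    | zero => intro g; rfl
    | succ j ih =>
      intro g
      rw [Function.iterate_succ_apply, hσ, ih]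
      rfl
  have hfin' : ∀ (j : ℕ) (x : Q), σ^[M * j] x = x := by
    intro j x
    rw [Function.iterate_mul]
    induction j with
    | zero => rfl
    | succ j ih => rw [Function.iterate_succ_apply, hfin, ih]
  have hpow : ∀ c, FinMod (thN (m c) (τ c) (m c + 1)) := by
    intro c
    refine ⟨M, hM, fun x => ?_⟩
    let g : ∀ c, Fin (m c + 1) → G c := Pi.mulSingle c (Pi.mulSingle 0 x)
    have hg : g c 0 = x := by simp [g]
    have h1 := hit ((m c + 1) * M) g
    have h2 : σ^[(m c + 1) * M] (π g) = π g := by rw [mul_comm]; exact hfin' _ _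
    rw [h2] at h1
    have h3 : (fun c' => (cycAut (m c') (τ c'))^[(m c + 1) * M] (g c')) * g⁻¹ ∈ π.ker := by
      rw [MonoidHom.mem_ker, map_mul, map_inv, ← h1, mul_inv_cancel]
    have h4 := center_apply (center_apply (hZ h3) c) (0 : Fin (m c + 1))
    refine ⟨_, h4, ?_⟩
    simp only [Pi.mul_apply, Pi.inv_apply]
    rw [cyc_iterate_mul, hg, inv_mul_cancel_right]
  choose N0 f0 d0 h0 using fun c => hch c (hpow c)
  choose NC fC dC hC using hcc
  refine prod_quot_rational (A := fun c => prodAlg (fun _ : Fin (m c + 1) => A c))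
    (fun c => Irr.prod fun _ => hirr c) (fun c => RStable.prod fun _ => hst c)
    (fun c => cycAut (m c) (τ c))
    (fun c => cycChart (m c) (τ c) (fun a ha B f f' hf hf' => hmul c a ha B f f' hf hf')
      (hinv c) (hτ c) (hτ' c) (h0 c).some (hC c).some)
    π hπ hZ σ hσ

section Asm

variable {ι : Type*} {S : ι → Type*} [∀ i, Group (S i)]

lemma exists_step (P : ∀ i j, (S i ≃* S j) → Prop) (p : Equiv.Perm ι) (τ : ∀ i, S (p i) ≃* S i)
    (hτ : ∀ i, P _ _ (τ i)) (i i' : ι) (h : p i = i') :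
    ∃ f : S i' ≃* S i, P _ _ f ∧ ∀ g : ∀ i, S i, τ i (g (p i)) = f (g i') := by
  subst h
  exact ⟨τ i, hτ i, fun _ => rfl⟩

theorem asm_rational {k : Type*} [Field k] [IsAlgClosed k] [CharZero k] [Fintype ι] [DecidableEq ι]
    (A : ∀ i, Subalgebra k (S i → k)) (hirr : ∀ i, Irr (A i)) (hst : ∀ i, RStable (A i))
    (hcen : ∀ i, Finite (Subgroup.center (S i)))
    (hgrp : ∀ i, GrpAlg (A i))
    (P : ∀ i j, (S i ≃* S j) → Prop) (hPr : ∀ i, P i i (MulEquiv.refl _))
    (hPt : ∀ i j l (f : S i ≃* S j) (g : S j ≃* S l), P i j f → P j l g → P i l (f.trans g))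
    (hPa : ∀ i j (f : S i ≃* S j), P i j f → ∀ a ∈ A j, (fun x => a (f x)) ∈ A i)
    (hPa' : ∀ i j (f : S i ≃* S j), P i j f → ∀ a ∈ A i, (fun x => a (f.symm x)) ∈ A j)
    (hch : ∀ i (T : S i ≃* S i), P i i T → FinMod T → HasChart (A i) (fixSub T) (fixMod T))
    (hcc : ∀ i, HasChart (A i) ⊥ (Subgroup.center (S i)))
    {Q : Type*} [Group Q] (π : (∀ i, S i) →* Q)
    (hπ : Function.Surjective π) (hZ : π.ker ≤ Subgroup.center _) (σ : Q ≃* Q) (M : ℕ) (hM : 0 < M)
    (hfin : ∀ x, σ^[M] x = x) (p : Equiv.Perm ι) (τ : ∀ i, S (p i) ≃* S i) (hτ : ∀ i, P _ _ (τ i))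
    (hσ : ∀ g : ∀ i, S i, σ (π g) = π (fun i => τ i (g (p i)))) :
    RationalQuotient (quotAlg (prodAlg A) π : Set (Q → k)) (fixSub σ) := by
  classical
  obtain ⟨C, _, _, m, e, he⟩ := exists_cycles p
  have hs : ∀ c (j : Fin (m c)), p (e ⟨c, j.castSucc⟩) = e ⟨c, j.succ⟩ := by
    intro c j
    rw [he, Fin.coeSucc_eq_succ]
  have hl : ∀ c, p (e ⟨c, Fin.last (m c)⟩) = e ⟨c, 0⟩ := by
    intro c
    rw [he, Fin.last_add_one]
  choose f hfP hf using fun c (j : Fin (m c)) => exists_step P p τ hτ _ _ (hs c j)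
  choose fl hflP hfl using fun c => exists_step P p τ hτ _ _ (hl c)
  let φ : ∀ c (j : Fin (m c + 1)), S (e ⟨c, j⟩) ≃* S (e ⟨c, 0⟩) := fun c j =>
    Fin.induction (motive := fun j => S (e ⟨c, j⟩) ≃* S (e ⟨c, 0⟩)) (MulEquiv.refl _)
      (fun j ih => (f c j).trans ih) j
  have hφ0 : ∀ c, φ c 0 = MulEquiv.refl _ := fun c => rfl
  have hφs : ∀ c (j : Fin (m c)), φ c j.succ = (f c j).trans (φ c j.castSucc) := fun c j => rfl
  have hφP : ∀ c (j : Fin (m c + 1)), P _ _ (φ c j) := by
    intro c j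
    induction j using Fin.induction with
    | zero => rw [hφ0]; exact hPr _
    | succ j ih => rw [hφs]; exact hPt _ _ _ _ _ (hfP c j) ih
  let τ' : ∀ c, Fin (m c + 1) → (S (e ⟨c, 0⟩) ≃* S (e ⟨c, 0⟩)) := fun c j =>
    if j = Fin.last (m c) then (fl c).trans (φ c (Fin.last (m c))) else MulEquiv.refl _
  have hτ'P : ∀ c j, P _ _ (τ' c j) := by
    intro c j
    show P _ _ (if j = Fin.last (m c) then (fl c).trans (φ c (Fin.last (m c))) else
      MulEquiv.refl _)
    split_ifs
    · exact hPt _ _ _ _ _ (hflP c) (hφP c _)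
    · exact hPr _
  -- the identification
  let Φe : (∀ c, Fin (m c + 1) → S (e ⟨c, 0⟩)) ≃ (∀ x : Σ c, Fin (m c + 1), S (e x)) :=
    { toFun := fun g x => (φ x.1 x.2).symm (g x.1 x.2)
      invFun := fun h c j => φ c j (h ⟨c, j⟩)
      left_inv := fun g => by funext c j; exact MulEquiv.apply_symm_apply _ _
      right_inv := fun h => by funext x; exact MulEquiv.symm_apply_apply _ _ }
  let Ψe : (∀ c, Fin (m c + 1) → S (e ⟨c, 0⟩)) ≃ (∀ i, S i) := Φe.trans (Equiv.piCongrLeft S e)
  have hΨ : ∀ g c (j : Fin (m c + 1)), Ψe g (e ⟨c, j⟩) = (φ c j).symm (g c j) := by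
    intro g c j
    exact Equiv.piCongrLeft_apply_apply S e (Φe g) ⟨c, j⟩
  have hΨ' : ∀ h c (j : Fin (m c + 1)), Ψe.symm h c j = φ c j (h (e ⟨c, j⟩)) := by
    intro h c j
    obtain ⟨g, rfl⟩ := Ψe.surjective h
    rw [Equiv.symm_apply_apply, hΨ, MulEquiv.apply_symm_apply]
  let Ψ : (∀ c, Fin (m c + 1) → S (e ⟨c, 0⟩)) →* (∀ i, S i) :=
    { toFun := fun g => Ψe g
      map_one' := by
        funext i
        obtain ⟨⟨c, j⟩, rfl⟩ := e.surjective i
        rw [hΨ]
        exact map_one _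
      map_mul' := fun g h => by
        funext i
        obtain ⟨⟨c, j⟩, rfl⟩ := e.surjective i
        rw [Pi.mul_apply, hΨ, hΨ, hΨ]
        exact map_mul _ _ _ }
  have hΨs : Function.Surjective Ψ := Ψe.surjective
  have hΨi : Function.Injective Ψ := Ψe.injective
  have hker : (π.comp Ψ).ker ≤ Subgroup.center _ := by
    intro g hg
    have h1 : Ψ g ∈ π.ker := hg
    rw [Subgroup.mem_center_iff]
    intro h
    apply hΨi
    rw [map_mul, map_mul]
    exact Subgroup.mem_center_iff.mp (hZ h1) (Ψ h)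
  have hσ' : ∀ g, σ ((π.comp Ψ) g) = (π.comp Ψ) (fun c => cycAut (m c) (τ' c) (g c)) := by
    intro g
    have h3 : (fun i => τ i ((Ψ g) (p i))) = Ψ (fun c => cycAut (m c) (τ' c) (g c)) := by
      funext i
      obtain ⟨⟨c, j⟩, rfl⟩ := e.surjective i
      have hR : Ψ (fun c => cycAut (m c) (τ' c) (g c)) (e ⟨c, j⟩)
          = (φ c j).symm (τ' c j (g c (j + 1))) := hΨ _ c j
      rw [hR]
      refine Fin.lastCases ?_ (fun j => ?_) j
      · rw [hfl c (Ψ g)]
        have h0 : (Ψ g) (e ⟨c, 0⟩) = g c 0 := hΨ g c 0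
        have h1 : τ' c (Fin.last (m c)) = (fl c).trans (φ c (Fin.last (m c))) := if_pos rfl
        rw [h0, h1, Fin.last_add_one]
        exact (MulEquiv.symm_apply_apply _ _).symm
      · rw [hf c j (Ψ g)]
        have h0 : (Ψ g) (e ⟨c, j.succ⟩) = (φ c j.succ).symm (g c j.succ) := hΨ g c j.succ
        have h1 : τ' c j.castSucc = MulEquiv.refl _ := if_neg (Fin.castSucc_lt_last j).ne
        rw [h0, h1, Fin.coeSucc_eq_succ, hφs]
        show f c j ((f c j).symm ((φ c j.castSucc).symm (g c j.succ))) = _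
        rw [MulEquiv.apply_symm_apply]
        rfl
    show σ (π (Ψ g)) = π (Ψ _)
    rw [hσ (Ψ g), h3]
  have hthP : ∀ c (n : ℕ), P _ _ (thN (m c) (τ' c) n) := by
    intro c n
    induction n with
    | zero => exact hPr _
    | succ n ih => exact hPt _ _ _ _ _ (hτ'P c _) ih
  have main := cyc_rational' m (fun c => A (e ⟨c, 0⟩)) (fun c => hirr _) (fun c => hst _)
    (fun c => hcen _) (fun c a ha B f f' h1 h2 => (hgrp _).mul B f f' h1 h2 ha)
    (fun c a ha => (hgrp _).2 a ha) τ' (fun c j => hPa _ _ _ (hτ'P c j))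
    (fun c j => hPa' _ _ _ (hτ'P c j)) (fun c h => hch _ _ (hthP c _) h) (fun c => hcc _)
    (π.comp Ψ) (hπ.comp hΨs) hker σ hσ' M hM hfin
  -- comparison of the regular functions
  have hfwd : ∀ F ∈ prodAlg A, (fun g => F (Ψ g)) ∈
      prodAlg (fun c => prodAlg (fun _ : Fin (m c + 1) => A (e ⟨c, 0⟩))) := by
    intro F hF
    induction hF using Algebra.adjoin_induction with
    | mem x hx =>
      obtain ⟨i, a, ha, rfl⟩ := hx
      obtain ⟨⟨c, j⟩, rfl⟩ := e.surjective i
      have h1 : (fun g : ∀ c, Fin (m c + 1) → S (e ⟨c, 0⟩) => a ((Ψ g) (e ⟨c, j⟩)))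
          = fun g => (fun y => a ((φ c j).symm y)) (g c j) := by
        funext g
        exact congrArg a (hΨ g c j)
      rw [h1]
      exact mem_prodAlg (fun c => prodAlg (fun _ : Fin (m c + 1) => A (e ⟨c, 0⟩))) c
        (mem_prodAlg (fun _ : Fin (m c + 1) => A (e ⟨c, 0⟩)) j (hPa' _ _ _ (hφP c j) a ha))
    | algebraMap r => exact Subalgebra.algebraMap_mem _ r
    | add x y _ _ hx hy => exact add_mem hx hy
    | mul x y _ _ hx hy => exact mul_mem hx hy
  have hbwd : ∀ F ∈ prodAlg (fun c => prodAlg (fun _ : Fin (m c + 1) => A (e ⟨c, 0⟩))),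
      (fun g => F (Ψe.symm g)) ∈ prodAlg A := by
    intro F hF
    induction hF using Algebra.adjoin_induction with
    | mem x hx =>
      obtain ⟨c, a', ha', rfl⟩ := hx
      induction ha' using Algebra.adjoin_induction with
      | mem x hx =>
        obtain ⟨j, a'', ha'', rfl⟩ := hx
        have h1 : (fun g : ∀ i, S i => a'' ((Ψe.symm g) c j))
            = fun g => (fun y => a'' (φ c j y)) (g (e ⟨c, j⟩)) := by
          funext g
          exact congrArg a'' (hΨ' g c j)
        show (fun g : ∀ i, S i => a'' ((Ψe.symm g) c j)) ∈ _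
        rw [h1]
        exact mem_prodAlg A (e ⟨c, j⟩) (hPa _ _ _ (hφP c j) a'' ha'')
      | algebraMap r => exact Subalgebra.algebraMap_mem _ r
      | add x y _ _ hx hy => exact add_mem hx hy
      | mul x y _ _ hx hy => exact mul_mem hx hy
    | algebraMap r => exact Subalgebra.algebraMap_mem _ r
    | add x y _ _ hx hy => exact add_mem hx hy
    | mul x y _ _ hx hy => exact mul_mem hx hy
  have hset : (quotAlg (prodAlg A) π : Set (Q → k))
      = (quotAlg (prodAlg (fun c => prodAlg (fun _ : Fin (m c + 1) => A (e ⟨c, 0⟩))))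
        (π.comp Ψ) : Set (Q → k)) := by
    ext F
    constructor
    · intro hF
      exact hfwd _ hF
    · intro hF
      have h1 := hbwd _ hF
      have h2 : (fun g => (fun g' => F ((π.comp Ψ) g')) (Ψe.symm g)) = fun g => F (π g) := by
        funext g
        show F (π (Ψe (Ψe.symm g))) = _
        rw [Equiv.apply_symm_apply]
      rw [h2] at h1
      exact h1
  rw [hset]
  exact main

end Asm

end Pool.Agent.Helper14.RG
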